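import Pool.Agent.Helper82.SP.GoalsC

/-!
# Project SP (MP_db6300_gt), packet SP-HBF: the boundary of the half ball
-/

set_option autoImplicit false

namespace Pool.Agent.Helper72.SP

open Matrix Real Pool.Agent.Helper82.SP Topology
open Pool.Agent.Helper26.LU (V)

theorem dot3 (x y : V) : x ⬝ᵥ y = x 0 * y 0 + x 1 * y 1 + x 2 * y 2 := by
  simp [dotProduct, Fin.sum_univ_three]

theorem cont_dot : Continuous fun x : V => x ⬝ᵥ x := by
  simp only [dot3]
  fun_prop

theorem goalHBF : Pool.Agent.Helper82.SP.G_HBF := by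
  intro a ha
  have hcl : IsClosed (half a) :=
    (isClosed_le cont_dot continuous_const).inter (isClosed_le continuous_const (continuous_apply 2))
  refine ⟨?_, ?_, ?_⟩
  · rintro x ⟨hx, hx2⟩ y ⟨hy, hy2⟩ s t hs ht hst
    refine ⟨?_, ?_⟩
    · have h1 : t = 1 - s := by linarith
      subst h1
      rw [dot3] at *
      simp only [Pi.add_apply, Pi.smul_apply, smul_eq_mul]
      have h2 : (s * x 0 + (1 - s) * y 0) * (s * x 0 + (1 - s) * y 0) +
          (s * x 1 + (1 - s) * y 1) * (s * x 1 + (1 - s) * y 1) +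
          (s * x 2 + (1 - s) * y 2) * (s * x 2 + (1 - s) * y 2) =
          s * (x 0 * x 0 + x 1 * x 1 + x 2 * x 2) + (1 - s) * (y 0 * y 0 + y 1 * y 1 + y 2 * y 2)
          - s * (1 - s) * ((x 0 - y 0) ^ 2 + (x 1 - y 1) ^ 2 + (x 2 - y 2) ^ 2) := by ring
      rw [h2]
      have h3 : 0 ≤ s * (1 - s) * ((x 0 - y 0) ^ 2 + (x 1 - y 1) ^ 2 + (x 2 - y 2) ^ 2) := by
        positivity
      have h4 := mul_le_mul_of_nonneg_left hx hs
      have h5 := mul_le_mul_of_nonneg_left hy ht
      nlinarith
    · show 0 ≤ s * x 2 + t * y 2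
      positivity
  · refine IsCompact.of_isClosed_subset (isCompact_Icc (a := fun _ : Fin 3 => -a)
      (b := fun _ : Fin 3 => a)) hcl ?_
    rintro x ⟨hx, -⟩
    rw [dot3] at hx
    have h : ∀ i, -a ≤ x i ∧ x i ≤ a := by
      intro i
      refine abs_le.mp (abs_le_of_sq_le_sq ?_ ha.le)
      fin_cases i
      · show x 0 ^ 2 ≤ a ^ 2
        nlinarith [sq_nonneg (x 1), sq_nonneg (x 2)]
      · show x 1 ^ 2 ≤ a ^ 2
        nlinarith [sq_nonneg (x 0), sq_nonneg (x 2)]
      · show x 2 ^ 2 ≤ a ^ 2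
        nlinarith [sq_nonneg (x 0), sq_nonneg (x 1)]
    exact ⟨fun i => (h i).1, fun i => (h i).2⟩
  · rw [hcl.frontier_eq]
    ext x
    constructor
    · rintro ⟨hx, hi⟩
      refine ⟨hx, ?_⟩
      by_contra hcon
      push Not at hcon
      obtain ⟨h0, h1⟩ := hcon
      apply hi
      have hU : IsOpen {y : V | y ⬝ᵥ y < a ^ 2 ∧ 0 < y 2} :=
        (isOpen_lt cont_dot continuous_const).inter (isOpen_lt continuous_const (continuous_apply 2))
      refine interior_maximal ?_ hU ⟨lt_of_le_of_ne hx.1 h1, lt_of_le_of_ne hx.2 (Ne.symm h0)⟩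
      rintro y ⟨hy, hy2⟩
      exact ⟨hy.le, hy2.le⟩
    · rintro ⟨hx, h⟩
      refine ⟨hx, fun hi => ?_⟩
      rcases h with h | h
      · have hc : Continuous fun e : ℝ => x - e • (fun i => if i = 2 then (1 : ℝ) else 0 : V) := by
          fun_prop
        have h1 : ∀ᶠ e in 𝓝 (0 : ℝ), x - e • (fun i => if i = 2 then (1 : ℝ) else 0 : V) ∈
            interior (half a) := by
          refine hc.continuousAt.eventually_mem ?_
          refine isOpen_interior.mem_nhds ?_
          simpa using hi
        have h2 : ∀ᶠ e in 𝓝[>] (0 : ℝ), x - e • (fun i => if i = 2 then (1 : ℝ) else 0 : V) ∈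
            interior (half a) := h1.filter_mono nhdsWithin_le_nhds
        obtain ⟨e, he, he0⟩ := (h2.and self_mem_nhdsWithin).exists
        have h3 := (interior_subset he).2
        have h4 : (0 : ℝ) < e := he0
        simp [h] at h3
        linarith
      · have hc : Continuous fun e : ℝ => (1 + e) • x := by fun_prop
        have h1 : ∀ᶠ e in 𝓝 (0 : ℝ), (1 + e) • x ∈ interior (half a) := by
          refine hc.continuousAt.eventually_mem ?_
          refine isOpen_interior.mem_nhds ?_
          simpa using hi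
        have h2 : ∀ᶠ e in 𝓝[>] (0 : ℝ), (1 + e) • x ∈ interior (half a) :=
          h1.filter_mono nhdsWithin_le_nhds
        obtain ⟨e, he, he0⟩ := (h2.and self_mem_nhdsWithin).exists
        have h3 := (interior_subset he).1
        have h4 : (0 : ℝ) < e := he0
        rw [smul_dotProduct, dotProduct_smul, h, smul_eq_mul, smul_eq_mul] at h3
        have h5 : 0 < a ^ 2 := by positivity
        nlinarith [mul_pos h4 h5, mul_pos (mul_pos h4 h4) h5]

end Pool.Agent.Helper72.SP
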